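import Pool.Agent.Q211.TP.Uni

/-!
# A non-N-compact union of a sequence of 2-embedded N-compact subspaces

The model is a symmetric extension of permutation type. The atoms are the pairs in `ℕ × ℤ` (every
atom is represented by an infinite set of mutually generic Cohen reals), the group consists of the
sequences of translations of the blocks `{n} × ℤ`, and the supports are the finite unions of
blocks. The space `X` is a linearly ordered space: the nodes `0, 1, 2, …`, and between the nodes
`n` and `n + 1` the block `n` in its natural order. The initial segment `A n` of the points below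
the node `n` is countable and compact in the model. Every continuous function from `X` to the
discrete space of the natural numbers has a support that consists of the first `k` blocks, so it is
constant on all later blocks, and it is constant beyond the node `k` by continuity. Therefore the
coordinates of an embedding into a power of the natural numbers converge along the nodes, and the
image is not closed.
-/

set_option autoImplicit false

namespace Pool.Agent.Results.MP_63c7e0_lc.TwoEmbeddedUnion

open Pool.Agent.W868 Pool.Agent.W868.PName Pool.Agent.Q211.SY Pool.Agent.Q211.FS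
open Pool.Agent.Q211.TP

/-- There is a countable transitive model of ZF with a zero-dimensional `T₁` space that is the
union of a sequence of `2`-embedded `ℕ`-compact subspaces but is not `ℕ`-compact. -/
theorem result : ∃ M : Set ZFSet.{0}, M.Countable ∧ IsZF M ∧
    ∃ X ∈ M, ∃ τ ∈ M, IsTopIn M X τ ∧ ZeroDim X τ ∧
      (∃ s ∈ M, ∃ A : ℕ → ZFSet.{0}, IsSeq s A ∧ (∀ z, z ∈ X ↔ ∃ n, z ∈ A n) ∧
        ∀ n, NatCompactIn M (A n) (subTop τ (A n)) ∧ EmbIn M (nat 2) (PM M (nat 2)) X τ (A n)) ∧
      ¬ NatCompactIn M X τ := by
  obtain ⟨M, X, τ, s, A, h⟩ := exists_uni
  exact ⟨M, h.cnt, h.zf, X, h.XM, τ, h.τM, h.top, h.zd, ⟨s, h.sM, A, h.seq, h.un, fun n =>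
    ⟨h.cpt n _ _ _ (goodE_nat h.zf), h.emb n _ _ (h.zf.nat_mem 2)⟩⟩,
    h.not _ _ _ flat_omega (goodE_nat h.zf)⟩

end Pool.Agent.Results.MP_63c7e0_lc.TwoEmbeddedUnion
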